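import Mathlib

/-!
# Digit sums of square roots and additive bases

Let `0 < y < 1` be irrational with `b^s0 * y^2` an integer.  Digits `x k` of `y` in base `b`,
`K n = ∑_{k ≤ n} x k`.  We prove
`49 (b - 1) τ n ≤ 48 (K n)^2 + 980 b (K n + 1 + s0)`, `τ = gcd (b, 2)`.
-/

set_option autoImplicit false
set_option linter.unusedSectionVars false
set_option linter.unusedSimpArgs false

open Finset

namespace Pool.Agent.H394R2.Ones

/-! ### digits -/

/-- `⌊y b^N⌋` -/
noncomputable def B (b : ℕ) (y : ℝ) (N : ℕ) : ℕ := ⌊y * (b : ℝ) ^ N⌋₊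

/-- the `N`-th digit of `y` in base `b` -/
noncomputable def x (b : ℕ) (y : ℝ) (N : ℕ) : ℕ := B b y N % b

/-- `y b^N - ⌊y b^N⌋` -/
noncomputable def ep (b : ℕ) (y : ℝ) (N : ℕ) : ℝ := y * (b : ℝ) ^ N - B b y N

/-- `∑_{i + j = m} x_i x_j` -/
noncomputable def r (b : ℕ) (y : ℝ) (m : ℕ) : ℕ :=
  ∑ p ∈ antidiagonal m, x b y p.1 * x b y p.2

/-- digit sum -/
noncomputable def K (b : ℕ) (y : ℝ) (N : ℕ) : ℕ := ∑ i ∈ range (N + 1), x b y i

/-- `∑_{i + j ≤ N} x_i x_j b^(N-i-j)` -/
noncomputable def S (b : ℕ) (y : ℝ) (N : ℕ) : ℕ := ∑ i ∈ range (N + 1), x b y i * B b y (N - i)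

/-- the tail -/
noncomputable def T (b : ℕ) (y : ℝ) (N : ℕ) : ℝ := y ^ 2 * (b : ℝ) ^ N - S b y N

section
variable {b : ℕ} {y : ℝ} (hb : 2 ≤ b) (hy0 : 0 < y) (hy1 : y < 1) (hirr : Irrational y)

include hb in
lemma B_succ (N : ℕ) : B b y (N + 1) = b * B b y N + x b y (N + 1) := by
  have hb0 : (b : ℝ) ≠ 0 := by positivity
  have h1 : B b y N = B b y (N + 1) / b := by
    unfold B
    rw [← Nat.floor_div_natCast]
    congr 1
    rw [pow_succ]
    field_simp
  unfold x
  rw [h1]
  exact (Nat.div_add_mod _ _).symm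

include hy0 hy1 in
lemma B_zero : B b y 0 = 0 := by
  unfold B
  rw [pow_zero, mul_one]
  exact Nat.floor_eq_zero.mpr hy1

include hy0 hy1 in
lemma x_zero : x b y 0 = 0 := by
  unfold x; rw [B_zero hy0 hy1, Nat.zero_mod]

include hy0 in
lemma ep_nonneg (N : ℕ) : 0 ≤ ep b y N := by
  unfold ep B
  have := Nat.floor_le (a := y * (b : ℝ) ^ N) (by positivity)
  linarith

lemma ep_lt (N : ℕ) : ep b y N < 1 := by
  unfold ep B
  have := Nat.lt_floor_add_one (y * (b : ℝ) ^ N)
  linarith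

include hb hy0 hirr in
lemma ep_pos (N : ℕ) : 0 < ep b y N := by
  refine lt_of_le_of_ne (ep_nonneg hy0 N) ?_
  intro h
  have h1 : y * (b : ℝ) ^ N = (B b y N : ℝ) := by unfold ep at h; linarith
  have h2 : Irrational (y * ((b ^ N : ℕ) : ℝ)) := by
    apply hirr.mul_natCast
    positivity
  apply h2
  refine ⟨(B b y N : ℚ), ?_⟩
  push_cast
  rw [h1]

include hb hy0 hy1 in
lemma B_eq (N : ℕ) : B b y N = ∑ i ∈ range (N + 1), x b y i * b ^ (N - i) := by
  induction N with
  | zero => simp [B_zero hy0 hy1, x_zero hy0 hy1]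
  | succ N ih =>
    rw [B_succ hb, sum_range_succ, Nat.sub_self, pow_zero, mul_one, ih, mul_sum]
    congr 1
    refine sum_congr rfl fun i hi => ?_
    have : i ≤ N := by have := mem_range.mp hi; omega
    rw [Nat.succ_sub this, pow_succ]
    ring

include hy0 hy1 in
lemma r_eq (N : ℕ) : r b y (N + 1) = ∑ i ∈ range (N + 1), x b y i * x b y (N + 1 - i) := by
  unfold r
  rw [Nat.sum_antidiagonal_eq_sum_range_succ_mk, sum_range_succ]
  simp [x_zero hy0 hy1]

include hb hy0 hy1 in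
lemma S_succ (N : ℕ) : S b y (N + 1) = b * S b y N + r b y (N + 1) := by
  rw [r_eq hy0 hy1]
  unfold S
  rw [sum_range_succ, Nat.sub_self, B_zero hy0 hy1, mul_zero, add_zero, mul_sum,
    ← sum_add_distrib]
  refine sum_congr rfl fun i hi => ?_
  have : i ≤ N := by have := mem_range.mp hi; omega
  rw [Nat.succ_sub this, B_succ hb]
  ring

include hy0 hy1 in
lemma S_zero : S b y 0 = 0 := by
  unfold S; simp [B_zero hy0 hy1]

include hy0 hy1 in
lemma r_zero : r b y 0 = 0 := by
  unfold r; simp [x_zero hy0 hy1]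

include hb hy0 hy1 in
lemma T_succ (N : ℕ) : T b y (N + 1) = b * T b y N - r b y (N + 1) := by
  unfold T
  rw [S_succ hb hy0 hy1]
  push_cast
  ring

include hb hy0 hy1 in
lemma T_eq (N : ℕ) : T b y N = ∑ i ∈ range (N + 1), x b y i * ep b y (N - i) + y * ep b y N := by
  have hb0 : (b : ℝ) ≠ 0 := by positivity
  have h1 : y * (b : ℝ) ^ N = B b y N + ep b y N := by unfold ep; ring
  have h2 : (B b y N : ℝ) * y = ∑ i ∈ range (N + 1), x b y i * (y * (b : ℝ) ^ (N - i)) := by
    rw [B_eq hb hy0 hy1]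
    push_cast
    rw [sum_mul]
    exact sum_congr rfl fun i _ => by ring
  have h3 : ∀ i, y * (b : ℝ) ^ (N - i) = B b y (N - i) + ep b y (N - i) := by
    intro i; unfold ep; ring
  have h4 : y ^ 2 * (b : ℝ) ^ N = B b y N * y + y * ep b y N := by
    calc y ^ 2 * (b : ℝ) ^ N = y * (y * (b : ℝ) ^ N) := by ring
      _ = _ := by rw [h1]; ring
  unfold T S
  rw [h4, h2]
  simp only [h3]
  push_cast
  simp only [mul_add, sum_add_distrib]
  ring

include hb hy0 hy1 hirr in
lemma T_pos (N : ℕ) : 0 < T b y N := by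
  rw [T_eq hb hy0 hy1]
  have h1 : 0 ≤ ∑ i ∈ range (N + 1), (x b y i : ℝ) * ep b y (N - i) :=
    sum_nonneg fun i _ => mul_nonneg (Nat.cast_nonneg _) (ep_nonneg hy0 _)
  have h2 : 0 < y * ep b y N := mul_pos hy0 (ep_pos hb hy0 hirr N)
  linarith

include hb hy0 hy1 in
lemma T_le (N : ℕ) : T b y N ≤ K b y N + 1 := by
  rw [T_eq hb hy0 hy1]
  have h1 : ∑ i ∈ range (N + 1), (x b y i : ℝ) * ep b y (N - i) ≤ K b y N := by
    unfold K
    push_cast
    refine sum_le_sum fun i _ => ?_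
    have := ep_lt (b := b) (y := y) (N - i)
    have h0 : (0 : ℝ) ≤ x b y i := Nat.cast_nonneg _
    nlinarith
  have h2 : y * ep b y N ≤ 1 := by
    have := ep_lt (b := b) (y := y) N
    have := ep_nonneg (b := b) hy0 N
    nlinarith
  linarith

lemma K_mono {m n : ℕ} (h : m ≤ n) : K b y m ≤ K b y n := by
  unfold K
  exact sum_le_sum_of_subset (range_mono (by omega))

/-- integrality and parity -/
lemma r_parity (m : ℕ) (h : r b y m % 2 = 1) : m % 2 = 0 ∧ 1 ≤ x b y (m / 2) := by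
  by_contra hcon
  have key : ∀ p ∈ antidiagonal m, (Prod.swap p) ∈ antidiagonal m := by
    intro p hp
    rw [HasAntidiagonal.mem_antidiagonal] at hp ⊢
    simpa [add_comm] using hp
  have hz : ((r b y m : ℕ) : ZMod 2) = 0 := by
    unfold r
    rw [Nat.cast_sum]
    refine sum_involution (fun p _ => Prod.swap p) ?_ ?_ key ?_
    · intro p _
      simp only [Prod.fst_swap, Prod.snd_swap]
      push_cast
      rw [mul_comm ((x b y p.2 : ℕ) : ZMod 2)]
      exact CharTwo.add_self_eq_zero _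
    · intro p hp hne heq
      rw [HasAntidiagonal.mem_antidiagonal] at hp
      have h1 : p.2 = p.1 := by
        have := congrArg Prod.fst heq
        simpa using this
      have h2 : m % 2 = 0 := by omega
      have h3 : m / 2 = p.1 := by omega
      apply hcon
      refine ⟨h2, ?_⟩
      rw [h3]
      by_contra h4
      have h5 : x b y p.1 = 0 := by omega
      apply hne
      rw [h5]; simp
    · intro p _
      simp
  rw [ZMod.natCast_eq_zero_iff] at hz
  omega

end

end Pool.Agent.H394R2.Ones
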