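import Pool.Agent.H394R2.Ones

/-!
# Digit sums of square roots and additive bases, part 2: Fourier argument
-/

set_option autoImplicit false
set_option linter.unusedSectionVars false
set_option linter.unusedSimpArgs false

open Finset

namespace Pool.Agent.H394R2.Ones

/-! ### pairs -/

lemma pair_sum {M : Type} [AddCommMonoid M] (n : ℕ) (f : ℕ → ℕ → M) :
    ∑ p ∈ range (n + 1) ×ˢ range (n + 1), f p.1 p.2 =
      ∑ m ∈ range (n + 1), ∑ p ∈ antidiagonal m, f p.1 p.2 +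
        ∑ p ∈ (range (n + 1) ×ˢ range (n + 1)).filter (fun p => ¬ p.1 + p.2 ≤ n), f p.1 p.2 := by
  rw [← sum_filter_add_sum_filter_not _ (fun p : ℕ × ℕ => p.1 + p.2 ≤ n)]
  congr 1
  rw [← sum_fiberwise_of_maps_to (g := fun p : ℕ × ℕ => p.1 + p.2) (t := range (n + 1))]
  · refine sum_congr rfl fun m hm => sum_congr ?_ fun _ _ => rfl
    ext p
    simp only [mem_filter, mem_product, mem_range, HasAntidiagonal.mem_antidiagonal] at hm ⊢
    constructor
    · rintro ⟨_, h⟩; exact h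
    · intro h
      omega
  · intro p hp
    simp only [mem_filter, mem_range] at hp ⊢
    omega

/-- exceptional positions -/
noncomputable def exc (b : ℕ) (y : ℝ) (m : ℕ) : ℕ := if m % 2 = 0 then x b y (m / 2) else 0

lemma exc_sum_two (b : ℕ) (y : ℝ) (n : ℕ) :
    ∑ m ∈ range (2 * n), exc b y m = ∑ i ∈ range n, x b y i := by
  induction n with
  | zero => simp
  | succ n ih =>
    rw [show 2 * (n + 1) = 2 * n + 1 + 1 by ring, sum_range_succ, sum_range_succ, ih,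
      sum_range_succ]
    have h1 : exc b y (2 * n) = x b y n := by
      unfold exc
      rw [if_pos (by omega)]
      congr 1; omega
    have h2 : exc b y (2 * n + 1) = 0 := by
      unfold exc
      rw [if_neg (by omega)]
    rw [h1, h2, add_zero]

lemma exc_sum (b : ℕ) (y : ℝ) (n : ℕ) : ∑ m ∈ range n, exc b y m ≤ K b y n := by
  calc ∑ m ∈ range n, exc b y m ≤ ∑ m ∈ range (2 * n), exc b y m :=
        sum_le_sum_of_subset (range_mono (by omega))
    _ = ∑ i ∈ range n, x b y i := exc_sum_two b y n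
    _ ≤ K b y n := by
        unfold K
        exact sum_le_sum_of_subset (range_mono (by omega))

section
variable {b : ℕ} {y : ℝ} (hb : 2 ≤ b) (hy0 : 0 < y) (hy1 : y < 1) (hirr : Irrational y)
  {s : ℕ} (hs : ∃ D : ℤ, y ^ 2 * (b : ℝ) ^ s = D)

include hs in
lemma T_int {m : ℕ} (hm : s ≤ m) : ∃ Z : ℤ, T b y m = Z := by
  obtain ⟨D, hD⟩ := hs
  refine ⟨D * (b : ℤ) ^ (m - s) - S b y m, ?_⟩
  unfold T
  push_cast
  rw [← hD, mul_assoc, ← pow_add, Nat.add_sub_cancel' hm]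

include hb hy0 hy1 hirr hs in
lemma T_lower {m : ℕ} (hm : s + 1 ≤ m) : ((Nat.gcd b 2 : ℕ) : ℝ) - exc b y m ≤ T b y m := by
  obtain ⟨Z, hZ⟩ := T_int (b := b) (y := y) hs (m := m) (by omega)
  obtain ⟨Z', hZ'⟩ := T_int (b := b) (y := y) hs (m := m - 1) (by omega)
  have hpos := T_pos hb hy0 hy1 hirr m
  have hrec := T_succ hb hy0 hy1 (m - 1)
  rw [Nat.sub_add_cancel (by omega : 1 ≤ m)] at hrec
  rw [hZ, hZ'] at hrec
  have hrec' : Z = b * Z' - r b y m := by exact_mod_cast hrec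
  rw [hZ] at hpos ⊢
  have hZ1 : 1 ≤ Z := by
    have : (0 : ℤ) < Z := by exact_mod_cast hpos
    omega
  have goal : (Nat.gcd b 2 : ℤ) - exc b y m ≤ Z := by
    rcases Nat.even_or_odd b with hev | hodd
    · have hg : Nat.gcd b 2 = 2 := Nat.gcd_eq_right hev.two_dvd
      rw [hg]
      by_cases h2 : 2 ≤ Z
      · push_cast; omega
      · have hZe : Z = 1 := by omega
        obtain ⟨c, hc⟩ := hev.two_dvd
        have hr : r b y m % 2 = 1 := by
          have hbz : (b : ℤ) * Z' = 2 * (c * Z') := by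
            rw [show (b : ℤ) = 2 * c by exact_mod_cast hc]; ring
          have h3 : (r b y m : ℤ) = 2 * (c * Z') - 1 := by linarith
          omega
        obtain ⟨h4, h5⟩ := r_parity m hr
        have h6 : exc b y m = x b y (m / 2) := by unfold exc; rw [if_pos h4]
        rw [h6]
        omega
    · have hg : Nat.gcd b 2 = 1 := Nat.Coprime.gcd_eq_one (by
        rw [Nat.coprime_two_right]; exact hodd)
      rw [hg]
      push_cast; omega
  exact_mod_cast goal

lemma gcd_le : ((Nat.gcd b 2 : ℕ) : ℝ) ≤ 2 := by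
  exact_mod_cast Nat.le_of_dvd (by norm_num) (Nat.gcd_dvd_right b 2)

lemma few_sum (s n : ℕ) (c : ℝ) (hc : 0 ≤ c) :
    ∑ m ∈ range n, (if m ≤ s then c else 0) ≤ c * (s + 1) := by
  rw [← sum_filter, sum_const, nsmul_eq_mul, mul_comm]
  refine mul_le_mul_of_nonneg_left ?_ hc
  have h1 : ((range n).filter fun m => m ≤ s).card ≤ (range (s + 1)).card :=
    card_le_card fun m hm => by
      simp only [mem_filter, mem_range] at hm ⊢
      omega
  rw [card_range] at h1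
  exact_mod_cast h1

include hb hy0 hy1 hirr hs in
lemma T_sum_lower (n : ℕ) :
    ((Nat.gcd b 2 : ℕ) : ℝ) * n - K b y n - 2 * (s + 1) ≤ ∑ m ∈ range n, T b y m := by
  have h1 : ∀ m ∈ range n, ((Nat.gcd b 2 : ℕ) : ℝ) - exc b y m - (if m ≤ s then 2 else 0)
      ≤ T b y m := by
    intro m _
    have h0 : (0 : ℝ) ≤ exc b y m := Nat.cast_nonneg _
    by_cases hm : m ≤ s
    · rw [if_pos hm]
      have := T_pos hb hy0 hy1 hirr m
      have := gcd_le (b := b)
      linarith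
    · rw [if_neg hm]
      have := T_lower hb hy0 hy1 hirr hs (m := m) (by omega)
      linarith
  have h2 := sum_le_sum h1
  rw [sum_sub_distrib, sum_sub_distrib, sum_const, card_range, nsmul_eq_mul] at h2
  have h3 : (∑ m ∈ range n, (exc b y m : ℝ)) ≤ K b y n := by
    exact_mod_cast exc_sum b y n
  have h4 := few_sum s n 2 (by norm_num)
  linarith

include hb hy0 hy1 hirr hs in
lemma T_abs_sum (n : ℕ) :
    ∑ m ∈ range n, |T b y m - ((Nat.gcd b 2 : ℕ) : ℝ)| ≤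
      ∑ m ∈ range n, T b y m - ((Nat.gcd b 2 : ℕ) : ℝ) * n + 2 * K b y n + 4 * (s + 1) := by
  have h1 : ∀ m ∈ range n, |T b y m - ((Nat.gcd b 2 : ℕ) : ℝ)| ≤
      (T b y m - ((Nat.gcd b 2 : ℕ) : ℝ)) + 2 * exc b y m + (if m ≤ s then 4 else 0) := by
    intro m _
    have h0 : (0 : ℝ) ≤ exc b y m := Nat.cast_nonneg _
    by_cases hm : m ≤ s
    · rw [if_pos hm, abs_le]
      have := T_pos hb hy0 hy1 hirr m
      have := gcd_le (b := b)
      constructor <;> linarith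
    · rw [if_neg hm, abs_le]
      have := T_lower hb hy0 hy1 hirr hs (m := m) (by omega)
      constructor <;> linarith
  have h2 := sum_le_sum h1
  rw [sum_add_distrib, sum_add_distrib, sum_sub_distrib, sum_const, card_range,
    nsmul_eq_mul, ← mul_sum] at h2
  have h3 : (∑ m ∈ range n, (exc b y m : ℝ)) ≤ K b y n := by
    exact_mod_cast exc_sum b y n
  have h4 := few_sum s n 4 (by norm_num)
  linarith

include hb hy0 hy1 in
lemma r_sum (w : ℂ) (n : ℕ) :
    ∑ m ∈ range (n + 1), (r b y m : ℂ) * w ^ m =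
      ((b : ℂ) - 1) * ∑ m ∈ range n, (T b y m : ℂ) * w ^ m
        + b * (w - 1) * ∑ m ∈ range n, (T b y m : ℂ) * w ^ m + T b y 0 - T b y n * w ^ n := by
  induction n with
  | zero => simp [r_zero hy0 hy1]
  | succ n ih =>
    rw [sum_range_succ, ih, sum_range_succ _ n]
    have h : (r b y (n + 1) : ℂ) = b * T b y n - T b y (n + 1) := by
      have h1 := T_succ hb hy0 hy1 (b := b) n
      have h2 : (r b y (n + 1) : ℝ) = b * T b y n - T b y (n + 1) := by linarith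
      exact_mod_cast congrArg (fun t : ℝ => (t : ℂ)) h2
    rw [h]
    ring

/-- total number of weighted representations -/
noncomputable def R (b : ℕ) (y : ℝ) (n : ℕ) : ℕ := ∑ m ∈ range (n + 1), r b y m

include hb hy0 hy1 in
lemma R_eq (n : ℕ) :
    (R b y n : ℝ) = ((b : ℝ) - 1) * ∑ m ∈ range n, T b y m + T b y 0 - T b y n := by
  have h := r_sum hb hy0 hy1 1 n
  simp only [one_pow, mul_one, sub_self, mul_zero, zero_mul, add_zero] at h
  unfold R
  push_cast
  exact_mod_cast h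

include hb hy0 hy1 hirr in
lemma T_sum_le (n : ℕ) : ∑ m ∈ range n, T b y m ≤ n * (K b y n + 1) := by
  calc ∑ m ∈ range n, T b y m ≤ ∑ m ∈ range n, ((K b y n : ℝ) + 1) := by
        refine sum_le_sum fun m hm => ?_
        have h1 := T_le hb hy0 hy1 m
        have h2 : (K b y m : ℝ) ≤ K b y n := by
          exact_mod_cast K_mono (mem_range.mp hm).le
        linarith
    _ = n * (K b y n + 1) := by rw [sum_const, card_range, nsmul_eq_mul]

/-- the error term -/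
noncomputable def E (b : ℕ) (y : ℝ) (s n : ℕ) : ℝ :=
  (K b y n : ℝ) ^ 2 - ((b : ℝ) - 1) * ((Nat.gcd b 2 : ℕ) : ℝ) * n + 20 * b * (K b y n + 1 + s)

include hb hy0 hy1 hirr hs in
lemma norm_r_sum {n : ℕ} (hn : 0 < n) {w : ℂ} (hw1 : ‖w‖ = 1) (hwn : w ^ n = 1) (hw : w ≠ 1)
    (hwd : ‖w - 1‖ * n ≤ 13) :
    ‖∑ m ∈ range (n + 1), (r b y m : ℂ) * w ^ m‖ + (K b y n : ℝ) ^ 2 - R b y n ≤ E b y s n := by
  set τ : ℝ := ((Nat.gcd b 2 : ℕ) : ℝ) with hτ
  have hbR : (2 : ℝ) ≤ b := by exact_mod_cast hb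
  have hn0 : (0 : ℝ) < n := by exact_mod_cast hn
  have hwp : ∀ m, ‖w ^ m‖ = 1 := fun m => by rw [norm_pow, hw1, one_pow]
  have hgeom : ∑ m ∈ range n, w ^ m = 0 := by
    have h := mul_neg_geom_sum w n
    rw [hwn, sub_self] at h
    rcases mul_eq_zero.mp h with h | h
    · exact absurd (by linear_combination -h) hw
    · exact h
  have hA : ∑ m ∈ range n, (T b y m : ℂ) * w ^ m
      = ∑ m ∈ range n, ((T b y m - τ : ℝ) : ℂ) * w ^ m := by
    have h1 : ∑ m ∈ range n, ((T b y m - τ : ℝ) : ℂ) * w ^ m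
        = ∑ m ∈ range n, (T b y m : ℂ) * w ^ m - τ * ∑ m ∈ range n, w ^ m := by
      rw [mul_sum, ← sum_sub_distrib]
      refine sum_congr rfl fun m _ => ?_
      push_cast
      ring
    rw [h1, hgeom, mul_zero, sub_zero]
  have h1 : ‖∑ m ∈ range n, (T b y m : ℂ) * w ^ m‖ ≤ ∑ m ∈ range n, |T b y m - τ| := by
    rw [hA]
    refine (norm_sum_le _ _).trans (sum_le_sum fun m _ => ?_)
    rw [norm_mul, hwp, mul_one, Complex.norm_real, Real.norm_eq_abs]
  have h2 : ‖∑ m ∈ range n, (T b y m : ℂ) * w ^ m‖ ≤ ∑ m ∈ range n, T b y m := by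
    refine (norm_sum_le _ _).trans (sum_le_sum fun m _ => ?_)
    rw [norm_mul, hwp, mul_one, Complex.norm_real, Real.norm_eq_abs,
      abs_of_pos (T_pos hb hy0 hy1 hirr m)]
  have h3 := T_abs_sum hb hy0 hy1 hirr hs n
  have h4 := T_sum_le hb hy0 hy1 hirr n
  have h5 := R_eq hb hy0 hy1 n
  have h6 := T_le hb hy0 hy1 (b := b) n
  have h7 := T_pos hb hy0 hy1 hirr n
  have h8 := T_pos hb hy0 hy1 hirr 0
  have hK : (0 : ℝ) ≤ K b y n := Nat.cast_nonneg _
  have hsn : (0 : ℝ) ≤ s := Nat.cast_nonneg _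
  have h9 : ‖∑ m ∈ range (n + 1), (r b y m : ℂ) * w ^ m‖ ≤
      ((b : ℝ) - 1) * (∑ m ∈ range n, |T b y m - τ|) + b * ‖w - 1‖ * (∑ m ∈ range n, T b y m)
        + T b y 0 + T b y n := by
    rw [r_sum hb hy0 hy1 w n]
    have e1 : ‖((b : ℂ) - 1)‖ = (b : ℝ) - 1 := by
      have : ((b : ℂ) - 1) = (((b : ℝ) - 1 : ℝ) : ℂ) := by push_cast; ring
      rw [this, Complex.norm_real, Real.norm_eq_abs, abs_of_nonneg (by linarith)]
    have e2 : ‖(T b y 0 : ℂ)‖ = T b y 0 := by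
      rw [Complex.norm_real, Real.norm_eq_abs, abs_of_pos h8]
    have e3 : ‖(T b y n : ℂ) * w ^ n‖ = T b y n := by
      rw [norm_mul, hwp, mul_one, Complex.norm_real, Real.norm_eq_abs, abs_of_pos h7]
    have e4 : ‖((b : ℂ) - 1) * ∑ m ∈ range n, (T b y m : ℂ) * w ^ m‖
        ≤ ((b : ℝ) - 1) * (∑ m ∈ range n, |T b y m - τ|) := by
      rw [norm_mul, e1]
      exact mul_le_mul_of_nonneg_left h1 (by linarith)
    have e5 : ‖(b : ℂ) * (w - 1) * ∑ m ∈ range n, (T b y m : ℂ) * w ^ m‖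
        ≤ b * ‖w - 1‖ * (∑ m ∈ range n, T b y m) := by
      rw [norm_mul, norm_mul, Complex.norm_natCast]
      exact mul_le_mul_of_nonneg_left h2 (by positivity)
    calc _ ≤ ‖((b : ℂ) - 1) * ∑ m ∈ range n, (T b y m : ℂ) * w ^ m
          + (b : ℂ) * (w - 1) * ∑ m ∈ range n, (T b y m : ℂ) * w ^ m + T b y 0‖
          + ‖(T b y n : ℂ) * w ^ n‖ := norm_sub_le _ _
      _ ≤ ‖((b : ℂ) - 1) * ∑ m ∈ range n, (T b y m : ℂ) * w ^ m
          + (b : ℂ) * (w - 1) * ∑ m ∈ range n, (T b y m : ℂ) * w ^ m‖ + ‖(T b y 0 : ℂ)‖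
          + ‖(T b y n : ℂ) * w ^ n‖ := by gcongr; exact norm_add_le _ _
      _ ≤ ‖((b : ℂ) - 1) * ∑ m ∈ range n, (T b y m : ℂ) * w ^ m‖
          + ‖(b : ℂ) * (w - 1) * ∑ m ∈ range n, (T b y m : ℂ) * w ^ m‖ + ‖(T b y 0 : ℂ)‖
          + ‖(T b y n : ℂ) * w ^ n‖ := by gcongr; exact norm_add_le _ _
      _ ≤ _ := by rw [e2, e3]; gcongr
  have h10 : b * ‖w - 1‖ * (∑ m ∈ range n, T b y m) ≤ 13 * b * (K b y n + 1) := by
    calc b * ‖w - 1‖ * (∑ m ∈ range n, T b y m) ≤ b * ‖w - 1‖ * (n * (K b y n + 1)) :=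
          mul_le_mul_of_nonneg_left h4 (by positivity)
      _ = b * (K b y n + 1) * (‖w - 1‖ * n) := by ring
      _ ≤ b * (K b y n + 1) * 13 := mul_le_mul_of_nonneg_left hwd (by positivity)
      _ = _ := by ring
  have h11 : ((b : ℝ) - 1) * (∑ m ∈ range n, |T b y m - τ|) ≤
      ((b : ℝ) - 1) * (∑ m ∈ range n, T b y m - τ * n + 2 * K b y n + 4 * (s + 1)) :=
    mul_le_mul_of_nonneg_left h3 (by linarith)
  have h12 : ((b : ℝ) - 1) * (2 * K b y n + 4 * (s + 1)) ≤ 4 * b * (K b y n + 1 + s) := by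
    nlinarith
  have h13 : 2 * ((K b y n : ℝ) + 1) ≤ b * (K b y n + 1 + s) := by nlinarith
  have h14 : 13 * (b : ℝ) * (K b y n + 1) ≤ 13 * b * (K b y n + 1 + s) := by
    have : (0 : ℝ) ≤ 13 * b * s := by positivity
    linarith
  have h15 : (0 : ℝ) ≤ b * (K b y n + 1 + s) := by positivity
  unfold E
  rw [← hτ]
  nlinarith

include hb hy0 hy1 hirr hs in
lemma sq_sub_R_le (n : ℕ) : (K b y n : ℝ) ^ 2 - R b y n ≤ E b y s n := by
  set τ : ℝ := ((Nat.gcd b 2 : ℕ) : ℝ) with hτ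
  have hbR : (2 : ℝ) ≤ b := by exact_mod_cast hb
  have h3 := T_sum_lower hb hy0 hy1 hirr hs n
  have h5 := R_eq hb hy0 hy1 n
  have h6 := T_le hb hy0 hy1 (b := b) n
  have h8 := T_pos hb hy0 hy1 hirr 0
  have hK : (0 : ℝ) ≤ K b y n := Nat.cast_nonneg _
  have hsn : (0 : ℝ) ≤ s := Nat.cast_nonneg _
  have h11 := mul_le_mul_of_nonneg_left h3 (by linarith : (0 : ℝ) ≤ (b : ℝ) - 1)
  have h12 : ((b : ℝ) - 1) * (K b y n + 2 * (s + 1)) ≤ 2 * b * (K b y n + 1 + s) := by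
    nlinarith
  have h13 : 2 * ((K b y n : ℝ) + 1) ≤ b * (K b y n + 1 + s) := by nlinarith
  have h15 : (0 : ℝ) ≤ b * (K b y n + 1 + s) := by positivity
  unfold E
  rw [← hτ]
  rw [← hτ] at h11
  nlinarith

end

end Pool.Agent.H394R2.Ones
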