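import Pool.Agent.H394R2.Ones2

/-!
# Digit sums of square roots and additive bases, part 3: conclusion
-/

set_option autoImplicit false
set_option linter.unusedSectionVars false
set_option linter.unusedSimpArgs false

open Finset

namespace Pool.Agent.H394R2.Ones

/-- exponential sum over the digits -/
noncomputable def F (b : ℕ) (y : ℝ) (n : ℕ) (w : ℂ) : ℂ := ∑ i ∈ range (n + 1), (x b y i : ℂ) * w ^ i

/-- digits in the upper half -/
noncomputable def K2 (b : ℕ) (y : ℝ) (n : ℕ) : ℕ :=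
  ∑ i ∈ (range (n + 1)).filter (fun i => ¬ 2 * i ≤ n), x b y i

/-- pairs with large sum -/
noncomputable def Q (b : ℕ) (y : ℝ) (n : ℕ) : ℕ :=
  ∑ p ∈ (range (n + 1) ×ˢ range (n + 1)).filter (fun p => ¬ p.1 + p.2 ≤ n), x b y p.1 * x b y p.2

section
variable {b : ℕ} {y : ℝ}

lemma K_sq (n : ℕ) : K b y n ^ 2 = R b y n + Q b y n := by
  unfold R Q r
  rw [← pair_sum n (fun i j => x b y i * x b y j), sq]
  unfold K
  rw [sum_mul_sum, sum_product]

lemma K2_sq (n : ℕ) : K2 b y n ^ 2 ≤ Q b y n := by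
  unfold K2 Q
  rw [sq, sum_mul_sum, ← sum_product']
  refine sum_le_sum_of_subset ?_
  intro p hp
  simp only [mem_filter, mem_product, mem_range] at hp ⊢
  omega

lemma F_sq (n : ℕ) {w : ℂ} (hw : ‖w‖ = 1) :
    ‖F b y n w‖ ^ 2 ≤ ‖∑ m ∈ range (n + 1), (r b y m : ℂ) * w ^ m‖ + Q b y n := by
  have h1 : F b y n w ^ 2 = ∑ m ∈ range (n + 1), (r b y m : ℂ) * w ^ m
      + ∑ p ∈ (range (n + 1) ×ˢ range (n + 1)).filter (fun p => ¬ p.1 + p.2 ≤ n),
        ((x b y p.1 : ℂ) * w ^ p.1) * ((x b y p.2 : ℂ) * w ^ p.2) := by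
    have h2 : F b y n w ^ 2 = ∑ p ∈ range (n + 1) ×ˢ range (n + 1),
        ((x b y p.1 : ℂ) * w ^ p.1) * ((x b y p.2 : ℂ) * w ^ p.2) := by
      unfold F
      rw [sq, sum_mul_sum, sum_product]
    rw [h2, pair_sum n (fun i j => ((x b y i : ℂ) * w ^ i) * ((x b y j : ℂ) * w ^ j))]
    congr 1
    refine sum_congr rfl fun m _ => ?_
    unfold r
    push_cast
    rw [sum_mul]
    refine sum_congr rfl fun p hp => ?_
    rw [HasAntidiagonal.mem_antidiagonal] at hp
    rw [← hp, pow_add]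
    ring
  rw [← norm_pow, h1]
  refine (norm_add_le _ _).trans ?_
  gcongr
  refine (norm_sum_le _ _).trans ?_
  unfold Q
  push_cast
  refine sum_le_sum fun p _ => ?_
  rw [norm_mul, norm_mul, norm_mul, norm_pow, norm_pow, hw, one_pow, one_pow, mul_one, mul_one,
    Complex.norm_natCast, Complex.norm_natCast]

lemma F_im (n : ℕ) (θ : ℝ) :
    (F b y n (Complex.exp (Complex.I * θ))).im = ∑ i ∈ range (n + 1), (x b y i : ℝ) * Real.sin (i * θ) := by
  unfold F
  rw [Complex.im_sum]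
  refine sum_congr rfl fun i _ => ?_
  rw [← Complex.exp_nat_mul]
  have : ((i : ℂ) * (Complex.I * θ)) = ((i * θ : ℝ) : ℂ) * Complex.I := by push_cast; ring
  rw [this]
  generalize (i : ℝ) * θ = t
  rw [Complex.exp_mul_I]
  have e1 := Complex.sin_ofReal_re t
  simp [e1]

lemma F_re (n : ℕ) (θ : ℝ) :
    (F b y n (Complex.exp (Complex.I * θ))).re = ∑ i ∈ range (n + 1), (x b y i : ℝ) * Real.cos (i * θ) := by
  unfold F
  rw [Complex.re_sum]
  refine sum_congr rfl fun i _ => ?_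
  rw [← Complex.exp_nat_mul]
  have : ((i : ℂ) * (Complex.I * θ)) = ((i * θ : ℝ) : ℂ) * Complex.I := by push_cast; ring
  rw [this]
  generalize (i : ℝ) * θ = t
  rw [Complex.exp_mul_I]
  have e1 := Complex.cos_ofReal_re t
  simp [e1]

/-- the test function `2 sin t + cos 2t` -/
lemma trig_low {n : ℕ} (hn : 0 < n) {i : ℕ} (hi : 2 * i ≤ n) :
    1 ≤ 2 * Real.sin (i * (2 * Real.pi / n)) + Real.cos (i * (2 * (2 * Real.pi / n))) := by
  have hn0 : (0 : ℝ) < n := by exact_mod_cast hn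
  set t : ℝ := i * (2 * Real.pi / n) with ht
  have e : (i : ℝ) * (2 * (2 * Real.pi / n)) = 2 * t := by rw [ht]; ring
  rw [e, Real.cos_two_mul, Real.cos_sq']
  have h0 : 0 ≤ t := by have := Real.pi_pos; positivity
  have h1 : t ≤ Real.pi := by
    rw [ht]
    have h2 : (2 : ℝ) * i ≤ n := by exact_mod_cast hi
    have h3 : (i : ℝ) * (2 * Real.pi / n) = Real.pi * ((2 * i) / n) := by ring
    rw [h3]
    have h4 : (2 * (i : ℝ)) / n ≤ 1 := by rw [div_le_one hn0]; exact h2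
    have := Real.pi_pos
    nlinarith
  have h2 := Real.sin_nonneg_of_nonneg_of_le_pi h0 h1
  have h3 := Real.sin_le_one t
  nlinarith

lemma trig_all (t : ℝ) : -3 ≤ 2 * Real.sin t + Real.cos (2 * t) := by
  rw [Real.cos_two_mul, Real.cos_sq']
  have h1 := Real.neg_one_le_sin t
  have h3 := Real.sin_le_one t
  nlinarith

lemma K_le_trig {n : ℕ} (hn : 0 < n) :
    (K b y n : ℝ) - 4 * K2 b y n ≤
      2 * (F b y n (Complex.exp (Complex.I * ((2 * Real.pi / n : ℝ) : ℂ)))).im +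
        (F b y n (Complex.exp (Complex.I * ((2 * (2 * Real.pi / n) : ℝ) : ℂ)))).re := by
  rw [F_im, F_re, mul_sum, ← sum_add_distrib]
  have h1 : (K b y n : ℝ) - 4 * K2 b y n = ∑ i ∈ range (n + 1),
      ((x b y i : ℝ) - 4 * (if ¬ 2 * i ≤ n then (x b y i : ℝ) else 0)) := by
    rw [sum_sub_distrib, ← mul_sum, ← sum_filter]
    unfold K K2
    push_cast
    rfl
  rw [h1]
  refine sum_le_sum fun i _ => ?_
  have hx : (0 : ℝ) ≤ x b y i := Nat.cast_nonneg _
  by_cases hi : 2 * i ≤ n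
  · rw [if_neg (not_not.mpr hi)]
    have := trig_low hn hi
    nlinarith
  · rw [if_pos hi]
    have := trig_all (i * (2 * Real.pi / n))
    have e : (i : ℝ) * (2 * (2 * Real.pi / n)) = 2 * (i * (2 * Real.pi / n)) := by ring
    rw [e]
    nlinarith

end

section
variable {b : ℕ} {y : ℝ} (hb : 2 ≤ b) (hy0 : 0 < y) (hy1 : y < 1) (hirr : Irrational y)
  {s : ℕ} (hs : ∃ D : ℤ, y ^ 2 * (b : ℝ) ^ s = D)

include hb hy0 hy1 hirr hs in
lemma F_bound {n : ℕ} {θ : ℝ} (h0 : 0 < θ) (h1 : θ < 2 * Real.pi)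
    (hθ : ∃ j : ℕ, θ * n = j * (2 * Real.pi)) (h2 : θ * n ≤ 13) (hn : 0 < n) :
    ‖F b y n (Complex.exp (Complex.I * (θ : ℂ)))‖ ^ 2 ≤ E b y s n := by
  set w : ℂ := Complex.exp (Complex.I * (θ : ℂ)) with hw
  have hw1 : ‖w‖ = 1 := by
    rw [hw, mul_comm]
    exact Complex.norm_exp_ofReal_mul_I θ
  have hwn : w ^ n = 1 := by
    obtain ⟨j, hj⟩ := hθ
    rw [hw, ← Complex.exp_nat_mul, Complex.exp_eq_one_iff]
    refine ⟨j, ?_⟩
    have : ((θ * n : ℝ) : ℂ) = ((j * (2 * Real.pi) : ℝ) : ℂ) := by rw [hj]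
    push_cast at this ⊢
    linear_combination Complex.I * this
  have hne : w ≠ 1 := by
    intro h
    rw [hw, Complex.exp_eq_one_iff] at h
    obtain ⟨m, hm⟩ := h
    have h3 : θ = m * (2 * Real.pi) := by
      have h4 : Complex.I * (θ : ℂ) = Complex.I * ((m * (2 * Real.pi) : ℝ) : ℂ) := by
        rw [hm]; push_cast; ring
      have h5 := mul_left_cancel₀ Complex.I_ne_zero h4
      exact_mod_cast h5
    have hpi := Real.pi_pos
    have h6 : (0 : ℝ) < m := by
      by_contra hcon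
      have : (m : ℝ) * (2 * Real.pi) ≤ 0 := by nlinarith
      linarith
    have h7 : (m : ℝ) < 1 := by
      by_contra hcon
      have : 1 * (2 * Real.pi) ≤ (m : ℝ) * (2 * Real.pi) := by nlinarith
      linarith
    have h8 : (0 : ℤ) < m := by exact_mod_cast h6
    have h9 : m < (1 : ℤ) := by exact_mod_cast h7
    omega
  have hd : ‖w - 1‖ * n ≤ 13 := by
    have h3 : ‖w - 1‖ ≤ θ := by
      have := Real.norm_exp_I_mul_ofReal_sub_one_le (x := θ)
      rw [Real.norm_eq_abs, abs_of_pos h0] at this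
      exact this
    have h4 : (0 : ℝ) ≤ n := Nat.cast_nonneg _
    nlinarith
  have h3 := norm_r_sum hb hy0 hy1 hirr hs hn hw1 hwn hne hd
  have h4 := F_sq (b := b) (y := y) n hw1
  have h5 : (K b y n : ℝ) ^ 2 = R b y n + Q b y n := by exact_mod_cast K_sq (b := b) (y := y) n
  linarith

include hb hy0 hy1 hirr hs in
/-- main inequality -/
theorem main (n : ℕ) :
    49 * ((b : ℝ) - 1) * ((Nat.gcd b 2 : ℕ) : ℝ) * n ≤
      48 * (K b y n : ℝ) ^ 2 + 980 * b * (K b y n + 1 + s) := by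
  have hbR : (2 : ℝ) ≤ b := by exact_mod_cast hb
  have hK : (0 : ℝ) ≤ K b y n := Nat.cast_nonneg _
  have hsn : (0 : ℝ) ≤ s := Nat.cast_nonneg _
  rcases Nat.lt_or_ge n 3 with hn | hn
  · have h1 : (n : ℝ) ≤ 2 := by exact_mod_cast (by omega : n ≤ 2)
    have h2 := gcd_le (b := b)
    have h3 : (0 : ℝ) ≤ ((Nat.gcd b 2 : ℕ) : ℝ) := Nat.cast_nonneg _
    have h4 : (0 : ℝ) ≤ (n : ℝ) := Nat.cast_nonneg _
    have h5 : ((Nat.gcd b 2 : ℕ) : ℝ) * n ≤ 4 := by nlinarith
    have h6 : 49 * ((b : ℝ) - 1) * ((Nat.gcd b 2 : ℕ) : ℝ) * n ≤ 49 * ((b : ℝ) - 1) * 4 := by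
      have : (0 : ℝ) ≤ 49 * ((b : ℝ) - 1) := by linarith
      calc 49 * ((b : ℝ) - 1) * ((Nat.gcd b 2 : ℕ) : ℝ) * n
          = 49 * ((b : ℝ) - 1) * (((Nat.gcd b 2 : ℕ) : ℝ) * n) := by ring
        _ ≤ _ := mul_le_mul_of_nonneg_left h5 this
    have h7 : 0 ≤ 48 * (K b y n : ℝ) ^ 2 := by positivity
    have h8 : 980 * (b : ℝ) ≤ 980 * b * (K b y n + 1 + s) := by nlinarith
    linarith
  · have hn0 : (0 : ℝ) < n := by exact_mod_cast (by omega : 0 < n)
    have hn3 : (3 : ℝ) ≤ n := by exact_mod_cast hn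
    have hpi := Real.pi_pos
    have hpi2 := Real.pi_lt_d2
    set e := E b y s n with he
    have hf1 : ‖F b y n (Complex.exp (Complex.I * ((2 * Real.pi / n : ℝ) : ℂ)))‖ ^ 2 ≤ e := by
      refine F_bound hb hy0 hy1 hirr hs (by positivity) ?_ ⟨1, ?_⟩ ?_ (by omega)
      · rw [div_lt_iff₀ hn0]; nlinarith
      · field_simp; norm_num
      · rw [div_mul_cancel₀ _ hn0.ne']; linarith
    have hf2 : ‖F b y n (Complex.exp (Complex.I * ((2 * (2 * Real.pi / n) : ℝ) : ℂ)))‖ ^ 2 ≤ e := by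
      refine F_bound hb hy0 hy1 hirr hs (by positivity) ?_ ⟨2, ?_⟩ ?_ (by omega)
      · rw [show 2 * (2 * Real.pi / n) = (4 * Real.pi) / n by ring, div_lt_iff₀ hn0]; nlinarith
      · field_simp; norm_num
      · rw [show 2 * (2 * Real.pi / n) * n = 4 * Real.pi * (n / n) by ring, div_self hn0.ne']
        linarith
    have hk2 : (K2 b y n : ℝ) ^ 2 ≤ e := by
      have h1 : (K2 b y n : ℝ) ^ 2 ≤ Q b y n := by exact_mod_cast K2_sq (b := b) (y := y) n
      have h2 : (K b y n : ℝ) ^ 2 = R b y n + Q b y n := by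
        exact_mod_cast K_sq (b := b) (y := y) n
      have h3 := sq_sub_R_le hb hy0 hy1 hirr hs n
      linarith
    have he0 : 0 ≤ e := (sq_nonneg _).trans hk2
    have g1 : (K2 b y n : ℝ) ≤ Real.sqrt e := Real.le_sqrt_of_sq_le hk2
    have g2 := Real.le_sqrt_of_sq_le hf1
    have g3 := Real.le_sqrt_of_sq_le hf2
    have g4 := K_le_trig (b := b) (y := y) (n := n) (by omega)
    have g5 := (Complex.im_le_norm (F b y n (Complex.exp (Complex.I * ((2 * Real.pi / n : ℝ) : ℂ))))).trans g2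
    have g6 := (Complex.re_le_norm
      (F b y n (Complex.exp (Complex.I * ((2 * (2 * Real.pi / n) : ℝ) : ℂ))))).trans g3
    have g7 : (K b y n : ℝ) ≤ 7 * Real.sqrt e := by linarith
    have g8 : (K b y n : ℝ) ^ 2 ≤ 49 * e := by
      have h1 := Real.sq_sqrt he0
      have h2 := Real.sqrt_nonneg e
      nlinarith
    rw [he] at g8
    unfold E at g8
    nlinarith

end

/-- **Digit sums of square roots.** -/
theorem digit_sum (d b : ℕ) (hd : ¬ IsSquare d) (hb : 2 ≤ b) :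
    ∃ C : ℝ, ∀ n : ℕ,
      7 * Real.sqrt (((b : ℝ) - 1) * (Nat.gcd b 2 : ℕ) / 48) * Real.sqrt n - C ≤
        ((∑ k ∈ range n, ⌊Real.sqrt d * (b : ℝ) ^ (k + 1)⌋₊ % b : ℕ) : ℝ) := by
  have hbR : (2 : ℝ) ≤ b := by exact_mod_cast hb
  have hb0 : (0 : ℝ) < b := by linarith
  have hirr : Irrational (Real.sqrt d) := by
    rw [irrational_sqrt_natCast_iff]; exact hd
  have hd0 : 0 < d := by
    rcases Nat.eq_zero_or_pos d with h | h
    · exact absurd ⟨0, by simp [h]⟩ hd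
    · exact h
  have hsd : 0 < Real.sqrt d := Real.sqrt_pos.mpr (by exact_mod_cast hd0)
  -- the shift
  set t := d with ht
  have hbt : Real.sqrt d < (b : ℝ) ^ t := by
    have h1 : Real.sqrt d ≤ d := by
      rw [Real.sqrt_le_left (Nat.cast_nonneg _)]
      have : (1 : ℝ) ≤ d := by exact_mod_cast hd0
      nlinarith
    have h2 : (d : ℝ) < (b : ℝ) ^ t := by
      have : d < b ^ d := Nat.lt_pow_self (by omega)
      exact_mod_cast this
    linarith
  set y : ℝ := Real.sqrt d / (b : ℝ) ^ t with hy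
  have hbt0 : (0 : ℝ) < (b : ℝ) ^ t := by positivity
  have hy0 : 0 < y := div_pos hsd hbt0
  have hy1 : y < 1 := by rw [hy, div_lt_one hbt0]; exact hbt
  have hyi : Irrational y := by
    rw [hy]
    have : Irrational (Real.sqrt d / ((b ^ t : ℕ) : ℝ)) := hirr.div_natCast (by positivity)
    exact_mod_cast this
  have hs : ∃ D : ℤ, y ^ 2 * (b : ℝ) ^ (2 * t) = D := by
    refine ⟨d, ?_⟩
    rw [hy, div_pow, Real.sq_sqrt (Nat.cast_nonneg _), mul_comm 2 t, pow_mul]
    field_simp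
    norm_cast
  have hdig : ∀ k, x b y (t + k) = ⌊Real.sqrt d * (b : ℝ) ^ k⌋₊ % b := by
    intro k
    unfold x B
    congr 2
    rw [hy, pow_add]
    field_simp
  have hKn : ∀ n, (K b y (n + t) : ℝ) ≤
      ((∑ k ∈ range n, ⌊Real.sqrt d * (b : ℝ) ^ (k + 1)⌋₊ % b : ℕ) : ℝ) + (t + 1) * b := by
    intro n
    have h1 : K b y (n + t) = ∑ i ∈ range (t + 1), x b y i +
        ∑ k ∈ range n, ⌊Real.sqrt d * (b : ℝ) ^ (k + 1)⌋₊ % b := by
      unfold K
      rw [show n + t + 1 = (t + 1) + n by ring, sum_range_add]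
      congr 1
      refine sum_congr rfl fun k _ => ?_
      rw [show t + 1 + k = t + (k + 1) by ring, hdig]
    have h2 : ∑ i ∈ range (t + 1), x b y i ≤ (t + 1) * b := by
      calc ∑ i ∈ range (t + 1), x b y i ≤ ∑ i ∈ range (t + 1), b :=
            sum_le_sum fun i _ => by unfold x; exact (Nat.mod_lt _ (by omega)).le
        _ = (t + 1) * b := by rw [sum_const, card_range, smul_eq_mul]
    rw [h1]
    push_cast
    have h3 : ((∑ i ∈ range (t + 1), x b y i : ℕ) : ℝ) ≤ (((t + 1) * b : ℕ) : ℝ) := by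
      exact_mod_cast h2
    push_cast at h3
    linarith
  -- conclusion
  set α : ℝ := ((b : ℝ) - 1) * (Nat.gcd b 2 : ℕ) / 48 with hα
  have hα0 : 0 ≤ α := by
    have : (0 : ℝ) ≤ (b : ℝ) - 1 := by linarith
    positivity
  set c : ℝ := 21 * b * (1 + 2 * t) with hc
  have ht0 : (0 : ℝ) ≤ t := Nat.cast_nonneg _
  have hc0 : 0 ≤ c := by positivity
  refine ⟨c + (t + 1) * b, fun n => ?_⟩
  have hm := main hb hy0 hy1 hyi hs (n + t)
  have hK : (0 : ℝ) ≤ K b y (n + t) := Nat.cast_nonneg _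
  have h1 : 49 * α * n ≤ (K b y (n + t) + c) ^ 2 := by
    have e1 : 49 * ((b : ℝ) - 1) * ((Nat.gcd b 2 : ℕ) : ℝ) * ((n + t : ℕ) : ℝ)
        = 48 * (49 * α * n) + 49 * ((b : ℝ) - 1) * ((Nat.gcd b 2 : ℕ) : ℝ) * t := by
      rw [hα]; push_cast; ring
    have e2 : 0 ≤ 49 * ((b : ℝ) - 1) * ((Nat.gcd b 2 : ℕ) : ℝ) * t := by
      have : (0 : ℝ) ≤ (b : ℝ) - 1 := by linarith
      positivity
    rw [e1] at hm
    push_cast at hm
    have e3 : 980 * (b : ℝ) * (K b y (n + t) + 1 + 2 * t) ≤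
        48 * (2 * K b y (n + t) * c + c ^ 2) := by
      have e4 : 980 * (b : ℝ) * K b y (n + t) ≤ 48 * (2 * K b y (n + t) * c) := by
        have : 980 * (b : ℝ) ≤ 96 * c := by rw [hc]; nlinarith
        nlinarith
      have e5 : 980 * (b : ℝ) * (1 + 2 * t) ≤ 48 * c ^ 2 := by
        have e6 : 1 ≤ c := by rw [hc]; nlinarith
        have e7 : 980 * (b : ℝ) * (1 + 2 * t) ≤ 48 * c := by rw [hc]; nlinarith
        nlinarith
      nlinarith
    nlinarith
  have h2 : 7 * Real.sqrt α * Real.sqrt n ≤ K b y (n + t) + c := by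
    have e : 7 * Real.sqrt α * Real.sqrt n = Real.sqrt (49 * α * n) := by
      rw [Real.sqrt_mul (by positivity), Real.sqrt_mul (by norm_num)]
      congr 2
      rw [show (49 : ℝ) = 7 ^ 2 by norm_num, Real.sqrt_sq (by norm_num)]
    rw [e]
    exact Real.sqrt_le_left (by positivity) |>.mpr h1 
  have h3 := hKn n
  linarith

end Pool.Agent.H394R2.Ones
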